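import Pool.Agent.U682.FT.Aff

/-!
# `F_4(X)` is Fréchet–Urysohn for metrizable `X` with compact derived set
-/

set_option autoImplicit false

namespace Pool.Agent.U682.FT

open Filter Topology Set

/-- the wandering case -/
theorem wander {X : Type} [MetricSpace X]
    (hX : IsCompact {x : X | ¬ IsOpen ({x} : Set X)}) (A : Set (FreeGroup X)) (g : FreeGroup X)
    (𝒱 : Ultrafilter (FreeGroup X)) (hAV : A ∈ 𝒱) (hVg : (𝒱 : Filter (FreeGroup X)) ≤ 𝓝 g)
    (D : Set X) (hD : ∀ S, S ⊆ D → IsOpen S) (hDc : IsClosed D)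
    (a b c : FreeGroup X → X) (ε δ : Bool)
    (hw : ∀ᶠ w in (𝒱 : Filter (FreeGroup X)), w = lt (a w) ε * (lt (b w) δ * lt (c w) (!δ)) *
      lt (a w) (!ε) ∧ a w ∈ D ∧ b w ∉ D ∧ c w ∉ D)
    (ha : ∀ s, ∀ᶠ w in (𝒱 : Filter (FreeGroup X)), a w ≠ s) (y z : X)
    (hb : Tendsto b 𝒱 (𝓝 y)) (hc : Tendsto c 𝒱 (𝓝 z)) :
    ∃ u : ℕ → FreeGroup X, (∀ n, u n ∈ A) ∧ Tendsto u atTop (𝓝 g) := by
  classical
  have hDo : IsOpen D := hD D subset_rfl
  have hy : y ∉ D := by
    intro hy
    obtain ⟨w, h1, h2⟩ := ((hb.eventually (hDo.mem_nhds hy)).and hw).exists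
    exact h2.2.2.1 h1
  have hz : z ∉ D := by
    intro hz
    obtain ⟨w, h1, h2⟩ := ((hc.eventually (hDo.mem_nhds hz)).and hw).exists
    exact h2.2.2.2 h1
  have hVid : Tendsto (fun w : FreeGroup X => w) 𝒱 (𝓝 g) := hVg
  -- `g` is inseparable from `y^δ z^(-δ)`
  have hlim : Tendsto (fun w => lt (b w) δ * lt (c w) (!δ)) 𝒱 (𝓝 (lt y δ * lt z (!δ))) :=
    (((continuous_lt δ).tendsto y).comp hb).mul (((continuous_lt (!δ)).tendsto z).comp hc)
  have hgs : Inseparable g (lt y δ * lt z (!δ)) := by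
    -- kill the letters of `D` not in `g`
    let S : Set X := {x | x ∈ g.toWord.map Prod.fst}
    have hSf : S.Finite := List.finite_toSet _
    let κ : X → FreeGroup X := fun x => if x ∈ D \ S then 1 else FreeGroup.of x
    have hκ : Continuous κ := by
      rw [continuous_iff_continuousAt]
      intro x
      by_cases hx : x ∈ D
      · have h1 : 𝓝 x = pure x := by
          rw [← isOpen_singleton_iff_nhds_eq_pure]
          exact hD {x} (by simpa using hx)
        rw [ContinuousAt, h1]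
        exact tendsto_pure_nhds _ _
      · have h1 : Dᶜ ∈ 𝓝 x := hDc.isOpen_compl.mem_nhds hx
        have h2 : (FreeGroup.of : X → FreeGroup X) =ᶠ[𝓝 x] κ := by
          filter_upwards [h1] with t ht
          simp only [κ]
          rw [if_neg (fun h => ht h.1)]
        exact ContinuousAt.congr continuous_of.continuousAt h2
    have hK := continuous_lift hκ
    have hKlt : ∀ x e, x ∉ D \ S → FreeGroup.lift κ (lt x e) = lt x e := by
      intro x e hx
      have h0 : κ x = FreeGroup.of x := if_neg hx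
      rw [lt_eq]
      cases e <;> simp [h0]
    have hKlt2 : ∀ x e, x ∈ D \ S → FreeGroup.lift κ (lt x e) = 1 := by
      intro x e hx
      have h0 : κ x = 1 := if_pos hx
      rw [lt_eq]
      cases e <;> simp [h0]
    have hKg : FreeGroup.lift κ g = g := by
      conv_rhs => rw [← FreeGroup.mk_toWord (x := g)]
      conv_lhs => rw [← FreeGroup.mk_toWord (x := g)]
      rw [mk_eq_prod, map_list_prod, List.map_map]
      congr 1
      apply List.map_congr_left
      intro l hl
      simp only [Function.comp]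
      apply hKlt
      intro h
      exact h.2 (List.mem_map.2 ⟨l, hl, rfl⟩)
    have hT1 : Tendsto (fun w => FreeGroup.lift κ w) 𝒱 (𝓝 g) := by
      have := (hK.tendsto g).comp hVid
      rw [hKg] at this
      exact this
    have haS : ∀ᶠ w in (𝒱 : Filter (FreeGroup X)), a w ∉ S := by
      have h1 : ∀ᶠ w in (𝒱 : Filter (FreeGroup X)), ∀ s ∈ S, a w ≠ s :=
        (Filter.eventually_all_finite hSf).2 fun s _ => ha s
      filter_upwards [h1] with w hw hS
      exact hw _ hS rfl
    have hT2 : (fun w => FreeGroup.lift κ w) =ᶠ[(𝒱 : Filter (FreeGroup X))]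
        fun w => lt (b w) δ * lt (c w) (!δ) := by
      filter_upwards [hw, haS] with w hw hS
      conv_lhs => rw [hw.1]
      rw [map_mul, map_mul, map_mul, hKlt2 _ _ ⟨hw.2.1, hS⟩, hKlt2 _ _ ⟨hw.2.1, hS⟩,
        hKlt _ _ (fun h => hw.2.2.1 h.1), hKlt _ _ (fun h => hw.2.2.2 h.1), one_mul, mul_one]
    exact tendsto_nhds_unique_inseparable (hT1.congr' hT2) hlim
  set K : Set X := {x : X | ¬ IsOpen ({x} : Set X)} with hKdef
  have hemb : Continuous (emb K) := emb_continuous K (fun x hx => by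
    simpa [hKdef] using hx)
  -- `y = z`
  have hyz : y = z := by
    have h2 : (2 : ℝ) ≠ 0 := two_ne_zero
    let lam : X → ℝˣ := fun _ => Units.mk0 2 h2
    have hF : Continuous (FreeGroup.lift (act D lam (emb K))) :=
      continuous_lift (continuous_act D hD hDc lam (emb K) hemb)
    have h3 : Tendsto (fun w => FreeGroup.lift (act D lam (emb K)) w) 𝒱
        (𝓝 (FreeGroup.lift (act D lam (emb K)) g)) := (hF.tendsto g).comp hVid
    have h4 : FreeGroup.lift (act D lam (emb K)) g = ⟨sg δ • (emb K y - emb K z), 1⟩ := by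
      rw [← lift_trans D lam (emb K) y z δ hy hz]
      exact (hgs.map hF).eq
    rw [h4] at h3
    have h5 := (continuous_v.tendsto _).comp h3
    have h6 : Tendsto (fun w => ((cond ε (Units.mk0 2 h2) (Units.mk0 2 h2)⁻¹ : ℝˣ) : ℝ) •
        sg δ • (emb K (b w) - emb K (c w))) 𝒱
        (𝓝 (((cond ε (Units.mk0 2 h2) (Units.mk0 2 h2)⁻¹ : ℝˣ) : ℝ) •
        sg δ • (emb K y - emb K z))) :=
      ((((hemb.tendsto y).comp hb).sub ((hemb.tendsto z).comp hc)).const_smul _).const_smul _
    have h7 : (Aff.v ∘ fun w => FreeGroup.lift (act D lam (emb K)) w)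
        =ᶠ[(𝒱 : Filter (FreeGroup X))] fun w =>
        ((cond ε (Units.mk0 2 h2) (Units.mk0 2 h2)⁻¹ : ℝˣ) : ℝ) •
        sg δ • (emb K (b w) - emb K (c w)) := by
      filter_upwards [hw] with w hw
      simp only [Function.comp]
      conv_lhs => rw [hw.1]
      rw [lift_conj D lam (emb K) _ _ _ ε δ hw.2.1 hw.2.2.1 hw.2.2.2]
    have h8 := tendsto_nhds_unique (h5.congr' h7) h6
    simp only at h8
    have h9 : (((cond ε (Units.mk0 2 h2) (Units.mk0 2 h2)⁻¹ : ℝˣ) : ℝ) - 1) •
        (sg δ • (emb K y - emb K z)) = 0 := by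
      rw [sub_smul, one_smul, ← h8, sub_self]
    have h10 : (((cond ε (Units.mk0 2 h2) (Units.mk0 2 h2)⁻¹ : ℝˣ) : ℝ) - 1) ≠ 0 := by
      cases ε <;> simp <;> norm_num
    have h11 : sg δ ≠ 0 := by
      cases δ <;> simp [sg]
    have h12 := (smul_eq_zero.1 ((smul_eq_zero.1 h9).resolve_left h10)).resolve_left h11
    exact emb_injective K (sub_eq_zero.1 h12)
  subst hyz
  have hg1 : Inseparable g 1 := by
    have : lt y δ * lt y (!δ) = 1 := by
      rw [lt_eq, lt_eq]
      cases δ <;> simp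
    rwa [this] at hgs
  -- the two cases
  let B : X → Set (X × X) := fun a =>
    {bc | lt a ε * (lt bc.1 δ * lt bc.2 (!δ)) * lt a (!ε) ∈ A}
  by_cases hcase : ∃ a0 x, (x, x) ∈ closure (B a0)
  · obtain ⟨a0, x, hx⟩ := hcase
    obtain ⟨s, hs, hsl⟩ := mem_closure_iff_seq_limit.1 hx
    refine ⟨fun n => lt a0 ε * (lt (s n).1 δ * lt (s n).2 (!δ)) * lt a0 (!ε), hs, ?_⟩
    have h1 : Tendsto (fun n => lt a0 ε * (lt (s n).1 δ * lt (s n).2 (!δ)) * lt a0 (!ε)) atTop
        (𝓝 (lt a0 ε * (lt x δ * lt x (!δ)) * lt a0 (!ε))) := by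
      have h2 : Tendsto (fun n => (s n).1) atTop (𝓝 x) := (continuous_fst.tendsto _).comp hsl
      have h3 : Tendsto (fun n => (s n).2) atTop (𝓝 x) := (continuous_snd.tendsto _).comp hsl
      exact (tendsto_const_nhds.mul ((((continuous_lt δ).tendsto x).comp h2).mul
        (((continuous_lt (!δ)).tendsto x).comp h3))).mul tendsto_const_nhds
    have h4 : lt a0 ε * (lt x δ * lt x (!δ)) * lt a0 (!ε) = 1 := by
      rw [lt_eq, lt_eq, lt_eq, lt_eq]
      cases δ <;> cases ε <;> simp
    rw [h4, ← hg1.nhds_eq] at h1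
    exact h1
  · exfalso
    push Not at hcase
    have h1 : ∀ a0, ∃ η > 0, ∀ bc ∈ B a0, η ≤ ‖emb K bc.1 - emb K bc.2‖ := fun a0 =>
      emb_separated K hX (B a0) (hcase a0)
    choose η hη hηB using h1
    let lam : X → ℝˣ := fun a => cond ε (Units.mk0 (η a) (hη a).ne')⁻¹ (Units.mk0 (η a) (hη a).ne')
    have hF : Continuous (FreeGroup.lift (act D lam (emb K))) :=
      continuous_lift (continuous_act D hD hDc lam (emb K) hemb)
    have h3 : Tendsto (fun w => FreeGroup.lift (act D lam (emb K)) w) 𝒱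
        (𝓝 (FreeGroup.lift (act D lam (emb K)) g)) := (hF.tendsto g).comp hVid
    have h4 : FreeGroup.lift (act D lam (emb K)) g = 1 := by
      rw [← map_one (FreeGroup.lift (act D lam (emb K)))]
      exact (hg1.map hF).eq
    rw [h4] at h3
    have h5 := ((continuous_v.tendsto _).comp h3).norm
    rw [one_v, norm_zero] at h5
    have h6 := h5.eventually (gt_mem_nhds (zero_lt_one))
    obtain ⟨w, h7, h8, h9⟩ := (h6.and (hw.and hAV)).exists
    simp only [Function.comp] at h7
    have h10 : (b w, c w) ∈ B (a w) := by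
      show lt (a w) ε * (lt (b w) δ * lt (c w) (!δ)) * lt (a w) (!ε) ∈ A
      rw [← h8.1]
      exact h9
    have h11 := hηB _ _ h10
    simp only at h11
    have h12 : (FreeGroup.lift (act D lam (emb K)) w).v =
        (η (a w))⁻¹ • sg δ • (emb K (b w) - emb K (c w)) := by
      conv_lhs => rw [h8.1]
      rw [lift_conj D lam (emb K) _ _ _ ε δ h8.2.1 h8.2.2.1 h8.2.2.2]
      simp only [lam]
      congr 1
      cases ε <;> simp
    rw [h12, norm_smul, norm_smul, norm_inv, Real.norm_of_nonneg (hη _).le] at h7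
    have h13 : ‖sg δ‖ = 1 := by
      cases δ <;> simp [sg]
    rw [h13, one_mul] at h7
    have h14 : 1 ≤ (η (a w))⁻¹ * ‖emb K (b w) - emb K (c w)‖ := by
      rw [← inv_mul_cancel₀ (hη (a w)).ne']
      exact mul_le_mul_of_nonneg_left h11 (inv_nonneg.2 (hη _).le)
    linarith

/-- an ultrafilter without limit in a compact set avoids a neighborhood of it -/
theorem exists_open_of_not_tendsto {X Y : Type} [TopologicalSpace X] (K : Set X)
    (hK : IsCompact K) (𝒱 : Ultrafilter Y) (f : Y → X) (h : ∀ y ∈ K, ¬ Tendsto f 𝒱 (𝓝 y)) :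
    ∃ U, IsOpen U ∧ K ⊆ U ∧ ∀ᶠ w in (𝒱 : Filter Y), f w ∉ U := by
  have h1 : ∀ y : K, ∃ U : Set X, IsOpen U ∧ (y : X) ∈ U ∧ ∀ᶠ w in (𝒱 : Filter Y), f w ∉ U := by
    intro y
    have h2 := h y y.2
    rw [tendsto_nhds] at h2
    push Not at h2
    obtain ⟨U, hU, hyU, hfU⟩ := h2
    refine ⟨U, hU, hyU, ?_⟩
    exact Ultrafilter.compl_mem_iff_notMem.2 hfU
  choose U hU hyU hfU using h1
  obtain ⟨t, ht⟩ := hK.elim_finite_subcover U hU (fun y hy => mem_iUnion.2 ⟨⟨y, hy⟩, hyU _⟩)
  refine ⟨⋃ i ∈ t, U i, isOpen_biUnion fun i _ => hU i, ht, ?_⟩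
  have h3 : ∀ᶠ w in (𝒱 : Filter Y), ∀ i ∈ t, f w ∉ U i :=
    (Filter.eventually_all_finset t).2 fun i _ => hfU i
  filter_upwards [h3] with w hw
  simp only [mem_iUnion, not_exists]
  exact fun i hi => hw i hi

theorem ultra_bool {Y : Type} (𝒱 : Ultrafilter Y) (P : Y → Bool → Prop)
    (h : ∀ᶠ w in (𝒱 : Filter Y), ∃ ε, P w ε) : ∃ ε, ∀ᶠ w in (𝒱 : Filter Y), P w ε := by
  have h1 : ∀ᶠ w in (𝒱 : Filter Y), P w true ∨ P w false := by
    filter_upwards [h] with w ⟨ε, hε⟩
    cases ε
    · exact Or.inr hε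
    · exact Or.inl hε
  rcases Ultrafilter.eventually_or.1 h1 with h2 | h2
  · exact ⟨_, h2⟩
  · exact ⟨_, h2⟩

/-- the word with letters `t` and signs `E` -/
def word {X : Type} {n : ℕ} (E : Fin n → Bool) (t : Fin n → X) : List (X × Bool) :=
  (List.finRange n).map fun i => (t i, E i)

theorem continuous_word {X : Type} [TopologicalSpace X] {n : ℕ} (E : Fin n → Bool) :
    Continuous fun t : Fin n → X => FreeGroup.mk (word E t) := by
  have : (fun t : Fin n → X => FreeGroup.mk (word E t)) = fun t =>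
      ((List.finRange n).map fun i => lt (t i) (E i)).prod := by
    funext t
    rw [mk_eq_prod, word, List.map_map]
    rfl
  rw [this]
  refine continuous_list_prod _ fun i _ => ?_
  exact (continuous_lt (E i)).comp (continuous_apply i)

theorem main {X : Type} [TopologicalSpace X] [TopologicalSpace.MetrizableSpace X]
    (hX : IsCompact {x : X | ¬ IsOpen ({x} : Set X)}) [DecidableEq X]
    (A : Set (FreeGroup X)) (hA : ∀ w ∈ A, w.toWord.length ≤ 4) (g : FreeGroup X)
    (hg : g ∈ closure A) :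
    ∃ u : ℕ → FreeGroup X, (∀ n, u n ∈ A) ∧ Tendsto u atTop (𝓝 g) := by
  classical
  letI : MetricSpace X := TopologicalSpace.metrizableSpaceMetric X
  obtain ⟨𝒱, hAV, hVg⟩ := mem_closure_iff_ultrafilter.1 hg
  have hVid : Tendsto (fun w : FreeGroup X => w) 𝒱 (𝓝 g) := hVg
  -- constant signs
  obtain ⟨e, he⟩ : ∃ e : List Bool, ∀ᶠ w in (𝒱 : Filter (FreeGroup X)),
      w.toWord.map Prod.snd = e := by
    have h1 : (⋃ e ∈ {l : List Bool | l.length ≤ 4},
        {w : FreeGroup X | w.toWord.map Prod.snd = e}) ∈ 𝒱 := by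
      filter_upwards [hAV] with w hw
      simp only [mem_iUnion, Set.mem_ofPred_eq, exists_prop]
      exact ⟨_, by simpa using hA w hw, rfl⟩
    rw [Ultrafilter.finite_biUnion_mem_iff (List.finite_length_le Bool 4)] at h1
    obtain ⟨e, _, he⟩ := h1
    exact ⟨e, he⟩
  obtain ⟨n, E, t, ht⟩ : ∃ (n : ℕ) (E : Fin n → Bool) (t : FreeGroup X → Fin n → X),
      ∀ᶠ w in (𝒱 : Filter (FreeGroup X)), w.toWord = word E (t w) := by
    refine ⟨e.length, e.get, ?_⟩
    refine Filter.Eventually.choice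
      (r := fun (w : FreeGroup X) (s : Fin e.length → X) => w.toWord = word e.get s) ?_
    filter_upwards [he] with w hw
    subst hw
    refine ⟨fun i => (w.toWord.get (i.cast (by simp))).1, ?_⟩
    apply List.ext_get
    · simp [word]
    · intro m h1 h2
      simp [word]
  by_cases hconv : ∀ i, ∃ y, Tendsto (fun w => t w i) 𝒱 (𝓝 y)
  · choose y hy using hconv
    have h1 : Tendsto t 𝒱 (𝓝 y) := tendsto_pi_nhds.2 hy
    let B : Set (Fin n → X) := {s | FreeGroup.mk (word E s) ∈ A}
    have h2 : ∀ᶠ w in (𝒱 : Filter (FreeGroup X)), FreeGroup.mk (word E (t w)) = w := by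
      filter_upwards [ht] with w hw
      rw [← hw, FreeGroup.mk_toWord]
    have h3 : y ∈ closure B := by
      refine mem_closure_of_tendsto h1 ?_
      filter_upwards [h2, hAV] with w hw hwA
      show FreeGroup.mk (word E (t w)) ∈ A
      rwa [hw]
    obtain ⟨s, hs, hsl⟩ := mem_closure_iff_seq_limit.1 h3
    refine ⟨fun m => FreeGroup.mk (word E (s m)), hs, ?_⟩
    have h4 : Tendsto (fun m => FreeGroup.mk (word E (s m))) atTop
        (𝓝 (FreeGroup.mk (word E y))) := ((continuous_word E).tendsto y).comp hsl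
    have h5 : Tendsto (fun w => FreeGroup.mk (word E (t w))) 𝒱 (𝓝 (FreeGroup.mk (word E y))) :=
      ((continuous_word E).tendsto y).comp h1
    have h6 : Inseparable g (FreeGroup.mk (word E y)) :=
      tendsto_nhds_unique_inseparable hVid (h5.congr' h2)
    rw [h6.nhds_eq]
    exact h4
  · push Not at hconv
    obtain ⟨i0, hi0⟩ := hconv
    set K : Set X := {x : X | ¬ IsOpen ({x} : Set X)} with hKdef
    have h1 : ∀ i : Fin n, ∃ U, IsOpen U ∧ K ⊆ U ∧ ((∀ y, ¬ Tendsto (fun w => t w i) 𝒱 (𝓝 y)) →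
        ∀ᶠ w in (𝒱 : Filter (FreeGroup X)), t w i ∉ U) := by
      intro i
      by_cases hi : ∀ y, ¬ Tendsto (fun w => t w i) 𝒱 (𝓝 y)
      · obtain ⟨U, hU, hKU, hfU⟩ := exists_open_of_not_tendsto K hX 𝒱 (fun w => t w i)
          (fun y _ => hi y)
        exact ⟨U, hU, hKU, fun _ => hfU⟩
      · exact ⟨univ, isOpen_univ, subset_univ _, fun h => absurd h hi⟩
    choose U hU hKU hfU using h1
    let D : Set X := (⋂ i, U i)ᶜ
    have hDc : IsClosed D := (isOpen_iInter_of_finite hU).isClosed_compl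
    have hDK : ∀ x ∈ D, IsOpen ({x} : Set X) := by
      intro x hx
      by_contra h
      apply hx
      rw [mem_iInter]
      exact fun i => hKU i h
    have hD : ∀ S, S ⊆ D → IsOpen S := by
      intro S hS
      rw [← biUnion_of_singleton S]
      exact isOpen_biUnion fun x hx => hDK x (hS hx)
    have hwan : ∀ i, (∀ y, ¬ Tendsto (fun w => t w i) 𝒱 (𝓝 y)) →
        ∀ᶠ w in (𝒱 : Filter (FreeGroup X)), t w i ∈ D := by
      intro i hi
      filter_upwards [hfU i hi] with w hw h
      exact hw (mem_iInter.1 h i)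
    have hwan2 : ∀ i, (∀ y, ¬ Tendsto (fun w => t w i) 𝒱 (𝓝 y)) → ∀ s,
        ∀ᶠ w in (𝒱 : Filter (FreeGroup X)), t w i ≠ s := by
      intro i hi s
      by_contra h
      rw [← Ultrafilter.eventually_not] at h
      apply hi s
      refine Tendsto.congr' ?_ tendsto_const_nhds
      filter_upwards [h] with w hw
      push Not at hw
      exact hw.symm
    -- the hom to the discrete free group
    let p : X → Option X := fun x => if x ∈ D then some x else none
    have hp1 : ∀ x y, x ∈ D → p x = p y → x = y := by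
      intro x y hx h
      simp only [p, if_pos hx] at h
      split_ifs at h with hy
      exact Option.some.inj h
    have hdisc : ∀ᶠ w in (𝒱 : Filter (FreeGroup X)), FreeGroup.map p w = FreeGroup.map p g := by
      letI : TopologicalSpace (FreeGroup (Option X)) := ⊥
      haveI : DiscreteTopology (FreeGroup (Option X)) := ⟨rfl⟩
      have hc : Continuous (fun x => (FreeGroup.of (p x) : FreeGroup (Option X))) := by
        rw [continuous_iff_continuousAt]
        intro x
        by_cases hx : x ∈ D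
        · have h1 : 𝓝 x = pure x := by
            rw [← isOpen_singleton_iff_nhds_eq_pure]
            exact hDK x hx
          rw [ContinuousAt, h1]
          exact tendsto_pure_nhds _ _
        · have h1 : Dᶜ ∈ 𝓝 x := hDc.isOpen_compl.mem_nhds hx
          have h2 : (fun _ => (FreeGroup.of none : FreeGroup (Option X))) =ᶠ[𝓝 x]
              fun x => (FreeGroup.of (p x) : FreeGroup (Option X)) := by
            filter_upwards [h1] with s hs
            simp only [p]
            rw [if_neg hs]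
          exact ContinuousAt.congr continuousAt_const h2
      have h2 := ((continuous_lift hc).tendsto g).comp hVid
      rw [nhds_discrete, tendsto_pure] at h2
      filter_upwards [h2] with w hw
      have h3 : FreeGroup.map p = FreeGroup.lift fun x => FreeGroup.of (p x) := by
        ext x
        simp
      rw [h3]
      exact hw
    have hletters : ∀ᶠ w in (𝒱 : Filter (FreeGroup X)),
        ∀ l ∈ (FreeGroup.map p g).toWord, l.1 ≠ some (t w i0) := by
      have : ∀ᶠ w in (𝒱 : Filter (FreeGroup X)),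
          ∀ l ∈ (FreeGroup.map p g).toWord.toFinset, l.1 ≠ some (t w i0) := by
        rw [Filter.eventually_all_finset]
        intro l _
        rcases hl : l.1 with _ | s
        · exact Eventually.of_forall fun w => by simp
        · filter_upwards [hwan2 i0 hi0 s] with w hw h
          exact hw (Option.some.inj h).symm
      filter_upwards [this] with w hw l hl
      exact hw l (List.mem_toFinset.2 hl)
    have hform : ∀ᶠ w in (𝒱 : Filter (FreeGroup X)), ∃ ε δ b c,
        w.toWord = [(t w i0, ε), (b, δ), (c, !δ), (t w i0, !ε)] ∧ b ∉ D ∧ c ∉ D := by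
      filter_upwards [hdisc, hletters, ht, hwan i0 hi0, hAV] with w h1 h2 h3 h4 h5
      obtain ⟨ε, b, c, δ, h6, h7, h8⟩ := comb D p hp1 w.toWord FreeGroup.isReduced_toWord
        (hA w h5) (t w i0) h4 (by
          rw [h3]
          simp [word]) (by
          intro e he
          rw [← FreeGroup.toWord_mk, ← FreeGroup.map.mk, FreeGroup.mk_toWord, h1] at he
          refine h2 _ he ?_
          simp only [p, if_pos h4])
      exact ⟨ε, δ, b, c, h6, h7, h8⟩
    obtain ⟨ε, hε⟩ := ultra_bool 𝒱 _ hform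
    obtain ⟨δ, hδ⟩ := ultra_bool 𝒱 _ hε
    -- `n = 4`
    obtain rfl : n = 4 := by
      obtain ⟨w, ⟨b, c, h1, _⟩, h2⟩ := (hδ.and ht).exists
      rw [h2] at h1
      have := congrArg List.length h1
      simpa [word] using this
    have hfin : ∀ᶠ w in (𝒱 : Filter (FreeGroup X)),
        w.toWord = [(t w 0, ε), (t w 1, δ), (t w 2, !δ), (t w 0, !ε)] ∧ t w i0 = t w 0 ∧
          t w 1 ∉ D ∧ t w 2 ∉ D := by
      filter_upwards [hδ, ht] with w ⟨b, c, h1, h2, h3⟩ h4
      rw [h4] at h1
      have h5 : word E (t w) = [(t w 0, E 0), (t w 1, E 1), (t w 2, E 2), (t w 3, E 3)] := by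
        simp [word, List.finRange_succ]
      rw [h5] at h1
      simp only [List.cons.injEq, Prod.mk.injEq, and_true] at h1
      obtain ⟨⟨a1, a2⟩, ⟨a3, a4⟩, ⟨a5, a6⟩, ⟨a7, a8⟩⟩ := h1
      rw [h4, h5]
      refine ⟨?_, a1.symm, by rw [a3]; exact h2, by rw [a5]; exact h3⟩
      rw [a2, a4, a6, a8, a7, ← a1]
    have h1c : ∀ i : Fin 4, (∀ᶠ w in (𝒱 : Filter (FreeGroup X)), t w i ∉ D) →
        ∃ y, Tendsto (fun w => t w i) 𝒱 (𝓝 y) := by
      intro i hi
      by_contra h
      push Not at h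
      obtain ⟨w, h1, h2⟩ := ((hwan i h).and hi).exists
      exact h2 h1
    obtain ⟨y, hy⟩ := h1c 1 (hfin.mono fun w hw => hw.2.2.1)
    obtain ⟨z, hz⟩ := h1c 2 (hfin.mono fun w hw => hw.2.2.2)
    refine wander hX A g 𝒱 hAV hVg D hD hDc (fun w => t w 0) (fun w => t w 1) (fun w => t w 2)
      ε δ ?_ ?_ y z hy hz
    · filter_upwards [hfin, hwan i0 hi0] with w hw hw2
      refine ⟨?_, by rw [← hw.2.1]; exact hw2, hw.2.2⟩
      conv_lhs => rw [← FreeGroup.mk_toWord (x := w), hw.1]
      simp only [lt, FreeGroup.mul_mk]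
      rfl
    · intro s
      filter_upwards [hfin, hwan2 i0 hi0 s] with w hw hw2
      rw [← hw.2.1]
      exact hw2

end Pool.Agent.U682.FT
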