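import Pool.Agent.U682.FT.Basic

/-!
# The affine group of a normed space and an embedding of a metric space with compact derived set
-/

set_option autoImplicit false

namespace Pool.Agent.U682.FT

open Filter Topology Set

/-- the affine maps `w ↦ s • w + v` -/
@[ext]
structure Aff (V : Type*) where
  /-- translation part -/
  v : V
  /-- dilation part -/
  s : ℝˣ

section Aff

variable {V : Type*} [NormedAddCommGroup V]

/-- as a pair -/
def Aff.toProd (a : Aff V) : V × ℝˣ := (a.v, a.s)

instance : TopologicalSpace (Aff V) := TopologicalSpace.induced Aff.toProd inferInstance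

theorem continuous_toProd : Continuous (Aff.toProd : Aff V → V × ℝˣ) := continuous_induced_dom

theorem continuous_v : Continuous (Aff.v : Aff V → V) := continuous_fst.comp continuous_toProd

theorem continuous_s : Continuous (Aff.s : Aff V → ℝˣ) := continuous_snd.comp continuous_toProd

theorem continuous_mk {Y : Type*} [TopologicalSpace Y] {f : Y → V} {g : Y → ℝˣ}
    (hf : Continuous f) (hg : Continuous g) : Continuous fun y => (⟨f y, g y⟩ : Aff V) := by
  rw [continuous_induced_rng]
  exact hf.prodMk hg

instance : T2Space (Aff V) :=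
  T2Space.of_injective_continuous (f := Aff.toProd) (by
    rintro ⟨a, b⟩ ⟨c, d⟩ h
    simp only [Aff.toProd, Prod.mk.injEq] at h
    rw [h.1, h.2]) continuous_toProd

instance : One (Aff V) := ⟨⟨0, 1⟩⟩

@[simp] theorem one_v : (1 : Aff V).v = 0 := rfl
@[simp] theorem one_s : (1 : Aff V).s = 1 := rfl

variable [NormedSpace ℝ V]

instance : Mul (Aff V) := ⟨fun a b => ⟨a.v + (a.s : ℝ) • b.v, a.s * b.s⟩⟩
instance : Inv (Aff V) := ⟨fun a => ⟨-(((a.s⁻¹ : ℝˣ) : ℝ) • a.v), a.s⁻¹⟩⟩

@[simp] theorem mul_v (a b : Aff V) : (a * b).v = a.v + (a.s : ℝ) • b.v := rfl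
@[simp] theorem mul_s (a b : Aff V) : (a * b).s = a.s * b.s := rfl
@[simp] theorem inv_v (a : Aff V) : (a⁻¹).v = -(((a.s⁻¹ : ℝˣ) : ℝ) • a.v) := rfl
@[simp] theorem inv_s (a : Aff V) : (a⁻¹).s = a.s⁻¹ := rfl

instance : Group (Aff V) :=
  Group.ofLeftAxioms
    (by
      intro a b c
      ext
      · simp only [mul_v, mul_s, Units.val_mul, smul_add, mul_smul, add_assoc]
      · simp only [mul_s, mul_assoc])
    (by
      intro a
      ext <;> simp)
    (by
      intro a
      ext <;> simp)

instance : IsTopologicalGroup (Aff V) where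
  continuous_mul := by
    refine continuous_mk ?_ ?_
    · exact (continuous_v.comp continuous_fst).add
        ((Units.continuous_val.comp (continuous_s.comp continuous_fst)).smul
          (continuous_v.comp continuous_snd))
    · exact (continuous_s.comp continuous_fst).mul (continuous_s.comp continuous_snd)
  continuous_inv := by
    refine continuous_mk ?_ ?_
    · exact ((Units.continuous_val.comp continuous_s.inv).smul continuous_v).neg
    · exact continuous_s.inv

/-- the sign -/
def sg (δ : Bool) : ℝ := cond δ 1 (-1)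

/-- the letters of `D` act by dilations `lam`, the other ones by translations `h` -/
noncomputable def act {X : Type} (D : Set X) [DecidablePred (· ∈ D)] (lam : X → ℝˣ) (h : X → V)
    (x : X) : Aff V :=
  if x ∈ D then ⟨0, lam x⟩ else ⟨h x, 1⟩

theorem act_pos {X : Type} (D : Set X) [DecidablePred (· ∈ D)] (lam : X → ℝˣ) (h : X → V)
    {x : X} (hx : x ∈ D) : act D lam h x = ⟨0, lam x⟩ := if_pos hx

theorem act_neg {X : Type} (D : Set X) [DecidablePred (· ∈ D)] (lam : X → ℝˣ) (h : X → V)
    {x : X} (hx : x ∉ D) : act D lam h x = ⟨h x, 1⟩ := if_neg hx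

theorem lift_trans {X : Type} (D : Set X) [DecidablePred (· ∈ D)] (lam : X → ℝˣ) (h : X → V)
    (b c : X) (δ : Bool) (hb : b ∉ D) (hc : c ∉ D) :
    FreeGroup.lift (act D lam h) (lt b δ * lt c (!δ)) = ⟨sg δ • (h b - h c), 1⟩ := by
  cases δ
  · simp only [lt_eq, Bool.not_false, cond_false, cond_true, map_mul, map_inv,
      FreeGroup.lift_apply_of, act_neg D lam h hb, act_neg D lam h hc]
    ext
    · simp [sg]
      abel
    · simp
  · simp only [lt_eq, Bool.not_true, cond_false, cond_true, map_mul, map_inv,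
      FreeGroup.lift_apply_of, act_neg D lam h hb, act_neg D lam h hc]
    ext
    · simp [sg]
      abel
    · simp

theorem lift_conj {X : Type} (D : Set X) [DecidablePred (· ∈ D)] (lam : X → ℝˣ) (h : X → V)
    (a b c : X) (ε δ : Bool) (ha : a ∈ D) (hb : b ∉ D) (hc : c ∉ D) :
    FreeGroup.lift (act D lam h) (lt a ε * (lt b δ * lt c (!δ)) * lt a (!ε)) =
      ⟨((cond ε (lam a) (lam a)⁻¹ : ℝˣ) : ℝ) • sg δ • (h b - h c), 1⟩ := by
  rw [map_mul, map_mul, lift_trans D lam h b c δ hb hc]
  cases ε
  · simp only [lt_eq, Bool.not_false, cond_false, cond_true, map_inv,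
      FreeGroup.lift_apply_of, act_pos D lam h ha]
    ext <;> simp
  · simp only [lt_eq, Bool.not_true, cond_false, cond_true, map_inv,
      FreeGroup.lift_apply_of, act_pos D lam h ha]
    ext <;> simp

theorem continuous_act {X : Type} [TopologicalSpace X] (D : Set X) [DecidablePred (· ∈ D)]
    (hD : ∀ S, S ⊆ D → IsOpen S) (hDc : IsClosed D) (lam : X → ℝˣ) (h : X → V)
    (hh : Continuous h) : Continuous (act D lam h) := by
  rw [continuous_iff_continuousAt]
  intro x
  by_cases hx : x ∈ D
  · have h1 : 𝓝 x = pure x := by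
      rw [← isOpen_singleton_iff_nhds_eq_pure]
      exact hD {x} (by simpa using hx)
    rw [ContinuousAt, h1]
    exact tendsto_pure_nhds _ _
  · have h1 : Dᶜ ∈ 𝓝 x := hDc.isOpen_compl.mem_nhds hx
    have h2 : (fun y => (⟨h y, 1⟩ : Aff V)) =ᶠ[𝓝 x] act D lam h := by
      filter_upwards [h1] with y hy
      rw [act_neg D lam h hy]
    refine ContinuousAt.congr ?_ h2
    exact (continuous_mk hh continuous_const).continuousAt

end Aff

section Embed

variable {X : Type} [MetricSpace X]

open Classical in
/-- the truncated distance to the set `K` -/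
noncomputable def rho (K : Set X) (x : X) : ℝ := (min 1 (Metric.infEDist x K)).toReal

theorem rho_le_one (K : Set X) (x : X) : rho K x ≤ 1 := by
  unfold rho
  have := ENNReal.toReal_mono (a := min 1 (Metric.infEDist x K)) (b := 1) ENNReal.one_ne_top
    (min_le_left _ _)
  simpa using this

theorem rho_nonneg (K : Set X) (x : X) : 0 ≤ rho K x := ENNReal.toReal_nonneg

theorem rho_le_dist (K : Set X) (x y : X) (hy : y ∈ K) : rho K x ≤ dist x y := by
  unfold rho
  rw [dist_edist]
  refine ENNReal.toReal_mono (edist_ne_top _ _) ?_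
  exact (min_le_right _ _).trans (Metric.infEDist_le_edist_of_mem hy)

theorem rho_eq_zero (K : Set X) (y : X) (hy : y ∈ K) : rho K y = 0 := by
  refine le_antisymm ?_ (rho_nonneg K y)
  simpa using rho_le_dist K y y hy

theorem exists_of_rho_lt (K : Set X) (x : X) (r : ℝ) (hr : rho K x < r) (hr1 : r ≤ 1) :
    ∃ y ∈ K, dist x y < r := by
  unfold rho at hr
  have h0 : 0 < r := lt_of_le_of_lt ENNReal.toReal_nonneg hr
  have h1 : min 1 (Metric.infEDist x K) < ENNReal.ofReal r := by
    rw [ENNReal.lt_ofReal_iff_toReal_lt]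
    · exact hr
    · exact ne_top_of_le_ne_top ENNReal.one_ne_top (min_le_left _ _)
  have h2 : Metric.infEDist x K < ENNReal.ofReal r := by
    rcases min_lt_iff.1 h1 with h | h
    · exfalso
      have : ENNReal.ofReal r ≤ 1 := by
        rw [← ENNReal.ofReal_one]
        exact ENNReal.ofReal_le_ofReal hr1
      exact absurd h (not_lt.2 this)
    · exact h
  obtain ⟨y, hy, h3⟩ := Metric.infEDist_lt_iff.1 h2
  refine ⟨y, hy, ?_⟩
  rw [edist_dist] at h3
  exact (ENNReal.ofReal_lt_ofReal_iff h0).1 h3

open Classical in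
/-- coordinates of the embedding -/
noncomputable def kur (K : Set X) (b z : X) : ℝ :=
  if z = b then - rho K b else min 1 (dist b z)

theorem kur_bdd (K : Set X) (b z : X) : |kur K b z| ≤ 1 := by
  unfold kur
  split_ifs
  · rw [abs_neg, abs_of_nonneg (rho_nonneg K b)]
    exact rho_le_one K b
  · rw [abs_of_nonneg (le_min zero_le_one dist_nonneg)]
    exact min_le_left _ _

/-- the embedding -/
noncomputable def emb (K : Set X) (b : X) : lp (fun _ : X => ℝ) ⊤ :=
  ⟨fun z => kur K b z, memℓp_infty ⟨1, by
    rintro _ ⟨z, rfl⟩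
    exact kur_bdd K b z⟩⟩

theorem emb_lower (K : Set X) (b c : X) (hbc : b ≠ c) :
    min 1 (dist b c) + rho K c ≤ ‖emb K b - emb K c‖ := by
  have h1 : ‖(emb K b - emb K c) c‖ ≤ ‖emb K b - emb K c‖ :=
    lp.norm_apply_le_norm (by simp) _ _
  refine le_trans ?_ h1
  have h2 : (emb K b - emb K c) c = kur K b c - kur K c c := rfl
  rw [h2, kur, kur, if_neg hbc.symm, if_pos rfl, sub_neg_eq_add]
  exact le_abs_self _

theorem emb_upper (K : Set X) (b c : X) (hc : c ∈ K) :
    ‖emb K b - emb K c‖ ≤ 2 * dist b c := by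
  refine lp.norm_le_of_forall_le (by positivity) ?_
  intro z
  have h2 : (emb K b - emb K c) z = kur K b z - kur K c z := rfl
  rw [h2, Real.norm_eq_abs]
  have h3 := rho_eq_zero K c hc
  have h4 := rho_le_dist K b c hc
  have h5 := rho_nonneg K b
  have h0 : 0 ≤ dist b c := dist_nonneg
  unfold kur
  by_cases hzb : z = b
  · by_cases hzc : z = c
    · have : b = c := by rw [← hzb, hzc]
      subst this
      simp
    · rw [if_pos hzb, if_neg hzc, hzb, dist_comm c b]
      have h6 : 0 ≤ min 1 (dist b c) := le_min zero_le_one dist_nonneg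
      have h7 : min 1 (dist b c) ≤ dist b c := min_le_right _ _
      rw [abs_le]
      constructor <;> linarith
  · by_cases hzc : z = c
    · rw [if_neg hzb, if_pos hzc, hzc, h3]
      have h6 : 0 ≤ min 1 (dist b c) := le_min zero_le_one dist_nonneg
      have h7 : min 1 (dist b c) ≤ dist b c := min_le_right _ _
      rw [abs_le]
      constructor <;> linarith
    · rw [if_neg hzb, if_neg hzc]
      have h6 : |min 1 (dist b z) - min 1 (dist c z)| ≤ |dist b z - dist c z| := by
        have := abs_min_sub_min_le_max 1 (dist b z) 1 (dist c z)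
        simpa using this
      have h7 : |dist b z - dist c z| ≤ dist b c := abs_dist_sub_le b c z
      linarith

theorem emb_injective (K : Set X) : Function.Injective (emb K) := by
  intro b c h
  by_contra hbc
  have h1 := emb_lower K b c hbc
  rw [h, sub_self, norm_zero] at h1
  have h2 : 0 < min 1 (dist b c) := lt_min one_pos (dist_pos.2 hbc)
  have h3 := rho_nonneg K c
  linarith

theorem emb_continuous (K : Set X) (hK : ∀ x ∉ K, IsOpen ({x} : Set X)) :
    Continuous (emb K) := by
  rw [continuous_iff_continuousAt]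
  intro x
  by_cases hx : x ∈ K
  · rw [ContinuousAt, tendsto_iff_norm_sub_tendsto_zero]
    refine squeeze_zero (fun _ => norm_nonneg _) (fun y => emb_upper K y x hx) ?_
    have : Tendsto (fun y => 2 * dist y x) (𝓝 x) (𝓝 (2 * dist x x)) :=
      (continuous_const.mul (continuous_id.dist continuous_const)).tendsto x
    simpa using this
  · have h1 : 𝓝 x = pure x := by
      rw [← isOpen_singleton_iff_nhds_eq_pure]
      exact hK x hx
    rw [ContinuousAt, h1]
    exact tendsto_pure_nhds _ _

theorem emb_separated (K : Set X) (hK : IsCompact K) (B : Set (X × X))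
    (hB : ∀ x, (x, x) ∉ closure B) :
    ∃ η > 0, ∀ bc ∈ B, η ≤ ‖emb K bc.1 - emb K bc.2‖ := by
  have h1 : IsCompact ((fun x : X => (x, x)) '' K) :=
    hK.image (continuous_id.prodMk continuous_id)
  have h2 : Disjoint ((fun x : X => (x, x)) '' K) (closure B) := by
    rw [Set.disjoint_left]
    rintro _ ⟨x, _, rfl⟩ h
    exact hB x h
  obtain ⟨δ, hδ, h3⟩ := h2.exists_thickenings h1 isClosed_closure
  refine ⟨min 1 (δ / 2), lt_min one_pos (by positivity), ?_⟩
  rintro ⟨b, c⟩ hbc
  by_contra hlt
  push Not at hlt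
  have hne : b ≠ c := by
    rintro rfl
    exact hB b (subset_closure hbc)
  have h4 := emb_lower K b c hne
  simp only at hlt
  have h5 : min 1 (dist b c) + rho K c < min 1 (δ / 2) := lt_of_le_of_lt h4 hlt
  have h6 := rho_nonneg K c
  have h7 : 0 ≤ min 1 (dist b c) := le_min zero_le_one dist_nonneg
  have h8 : min 1 (dist b c) < min 1 (δ / 2) := by linarith
  have h9 : dist b c < δ / 2 := by
    rcases min_lt_iff.1 h8 with h | h
    · exact absurd h (not_lt.2 (min_le_left _ _))
    · exact lt_of_lt_of_le h (min_le_right _ _)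
  obtain ⟨y, hy, h10⟩ := exists_of_rho_lt K c (min 1 (δ / 2)) (by linarith) (min_le_left _ _)
  have h11 : dist c y < δ / 2 := lt_of_lt_of_le h10 (min_le_right _ _)
  have h12 : dist b y < δ := by
    have := dist_triangle b c y
    linarith
  refine Set.disjoint_left.1 h3 (?_ : (b, c) ∈ _) ?_
  · rw [Metric.mem_thickening_iff]
    refine ⟨(y, y), ⟨y, hy, rfl⟩, ?_⟩
    rw [Prod.dist_eq]
    exact max_lt h12 (by linarith)
  · exact Metric.self_subset_thickening hδ _ (subset_closure hbc)

end Embed

end Pool.Agent.U682.FT
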