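import Mathlib

/-!
# The free topological group: universal property
-/

set_option autoImplicit false

namespace Pool.Agent.U682.FT

open Filter Topology Set

/-- the topology of the free topological group on `X` -/
scoped instance freeTop (X : Type) [τ : TopologicalSpace X] : TopologicalSpace (FreeGroup X) :=
  (sInf {t : GroupTopology (FreeGroup X) |
    @Continuous X (FreeGroup X) τ t.toTopologicalSpace FreeGroup.of}).toTopologicalSpace

scoped instance freeTopGroup (X : Type) [τ : TopologicalSpace X] :
    IsTopologicalGroup (FreeGroup X) :=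
  (sInf {t : GroupTopology (FreeGroup X) |
    @Continuous X (FreeGroup X) τ t.toTopologicalSpace FreeGroup.of}).toIsTopologicalGroup

theorem continuous_of {X : Type} [τ : TopologicalSpace X] :
    Continuous (FreeGroup.of : X → FreeGroup X) := by
  unfold freeTop
  rw [GroupTopology.toTopologicalSpace_sInf, continuous_sInf_rng]
  rintro _ ⟨t, ht, rfl⟩
  exact ht

theorem continuous_lift {X : Type} [τ : TopologicalSpace X] {H : Type*} [Group H]
    [TopologicalSpace H] [IsTopologicalGroup H] {f : X → H} (hf : Continuous f) :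
    Continuous (FreeGroup.lift f : FreeGroup X → H) := by
  rw [continuous_iff_le_induced]
  unfold freeTop
  rw [GroupTopology.toTopologicalSpace_sInf]
  refine sInf_le ⟨⟨TopologicalSpace.induced (FreeGroup.lift f) ‹_›,
    topologicalGroup_induced (FreeGroup.lift f)⟩, ?_, rfl⟩
  show @Continuous X (FreeGroup X) τ (TopologicalSpace.induced (FreeGroup.lift f) ‹_›)
    FreeGroup.of
  rw [continuous_induced_rng]
  have : (FreeGroup.lift f : FreeGroup X → H) ∘ FreeGroup.of = f := by
    funext x
    simp
  rw [this]
  exact hf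

/-- a letter -/
def lt {X : Type} (x : X) (e : Bool) : FreeGroup X := FreeGroup.mk [(x, e)]

theorem lt_eq {X : Type} (x : X) (e : Bool) :
    lt x e = cond e (FreeGroup.of x) (FreeGroup.of x)⁻¹ := by
  cases e <;> rfl

theorem continuous_lt {X : Type} [τ : TopologicalSpace X] (e : Bool) :
    Continuous (fun x : X => lt x e) := by
  cases e
  · exact continuous_of.inv
  · exact continuous_of

theorem mk_eq_prod {X : Type} (L : List (X × Bool)) :
    FreeGroup.mk L = (L.map fun l => lt l.1 l.2).prod := by
  induction L with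
  | nil => rfl
  | cons a L ih =>
    rw [List.map_cons, List.prod_cons, ← ih, lt, FreeGroup.mul_mk]
    rfl

/-- The combinatorial lemma: a reduced word of length at most four whose image under collapsing
the complement of `D` to a letter does not involve the letter `x ∈ D` of the word. -/
theorem comb {X Z : Type} [DecidableEq Z] (D : Set X) (p : X → Z)
    (hp1 : ∀ x y, x ∈ D → p x = p y → x = y)
    (L : List (X × Bool)) (hL : FreeGroup.IsReduced L) (h4 : L.length ≤ 4)
    (x : X) (hx : x ∈ D) (hxL : x ∈ L.map Prod.fst)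
    (hq : ∀ e, (p x, e) ∉ FreeGroup.reduce (L.map fun l => (p l.1, l.2))) :
    ∃ ε b c δ, L = [(x, ε), (b, δ), (c, !δ), (x, !ε)] ∧ b ∉ D ∧ c ∉ D := by
  classical
  -- the list is not reduced
  have key : ∀ M : List (X × Bool), x ∈ M.map Prod.fst →
      FreeGroup.reduce (M.map fun l => (p l.1, l.2)) =
        FreeGroup.reduce (L.map fun l => (p l.1, l.2)) →
      ∃ L1 u v β L2, M = L1 ++ (u, β) :: (v, !β) :: L2 ∧ p u = p v := by
    intro M hxM hM
    have h1 : ¬ FreeGroup.IsReduced (M.map fun l => (p l.1, l.2)) := by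
      intro h
      rw [← hM, h.reduce_eq] at hq
      obtain ⟨⟨y, e⟩, hy, rfl⟩ := List.mem_map.1 hxM
      exact hq e (List.mem_map.2 ⟨(y, e), hy, rfl⟩)
    rw [FreeGroup.isReduced_iff_not_step] at h1
    push Not at h1
    obtain ⟨M', hM'⟩ := h1
    generalize hN : (M.map fun l => (p l.1, l.2)) = N at hM'
    cases hM' with
    | @not L₁ L₂ z β =>
      obtain ⟨M1, M2, rfl, h2, h3⟩ := List.map_eq_append_iff.1 hN
      obtain ⟨u, M3, rfl, h4, h5⟩ := List.map_eq_cons_iff.1 h3
      obtain ⟨v, M4, rfl, h6, h7⟩ := List.map_eq_cons_iff.1 h5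
      simp only [Prod.mk.injEq] at h4 h6
      refine ⟨M1, u.1, v.1, β, M4, ?_, by rw [h4.1, h6.1]⟩
      have e1 : u = (u.1, β) := by rw [← h4.2]
      have e2 : v = (v.1, !β) := by rw [← h6.2]
      rw [← e1, ← e2]
  obtain ⟨L1, u, v, β, L2, rfl, huv⟩ := key L hxL rfl
  have hred : ∀ (A B : List (X × Bool)) (s t : X) (γ : Bool),
      FreeGroup.IsReduced (A ++ (s, γ) :: (t, !γ) :: B) → s ≠ t := by
    intro A B s t γ h he
    have h2 : FreeGroup.IsReduced ((s, γ) :: (t, !γ) :: B) := (List.isChain_append.1 h).2.1
    rw [FreeGroup.isReduced_cons_cons] at h2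
    have := h2.1 he
    simp at this
  have hne : u ≠ v := hred _ _ _ _ _ hL
  have hu : u ∉ D := fun h => hne (hp1 _ _ h huv)
  have hv : v ∉ D := fun h => hne (hp1 _ _ h huv.symm).symm
  have hxu : x ≠ u := fun h => hu (h ▸ hx)
  have hxv : x ≠ v := fun h => hv (h ▸ hx)
  have hx2 : x ∈ (L1 ++ L2).map Prod.fst := by
    simp only [List.map_append, List.map_cons, List.mem_append, List.mem_cons] at hxL ⊢
    tauto
  have hre : FreeGroup.reduce ((L1 ++ L2).map fun l => (p l.1, l.2)) =
      FreeGroup.reduce ((L1 ++ (u, β) :: (v, !β) :: L2).map fun l => (p l.1, l.2)) := by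
    symm
    apply FreeGroup.reduce.Step.eq
    simp only [List.map_append, List.map_cons, huv]
    exact FreeGroup.Red.Step.not
  obtain ⟨K1, s, t, γ, K2, hK, hst⟩ := key (L1 ++ L2) hx2 hre
  have hlen : (L1 ++ L2).length ≤ 2 := by
    simp only [List.length_append, List.length_cons] at h4 ⊢
    omega
  have hK1 : K1 = [] := by
    rw [hK] at hlen
    simp only [List.length_append, List.length_cons] at hlen
    exact List.length_eq_zero_iff.1 (by omega)
  have hK2 : K2 = [] := by
    rw [hK] at hlen
    simp only [List.length_append, List.length_cons] at hlen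
    exact List.length_eq_zero_iff.1 (by omega)
  subst hK1 hK2
  simp only [List.nil_append] at hK
  rw [hK] at hx2
  simp only [List.map_cons, List.map_nil, List.mem_cons, List.not_mem_nil, or_false] at hx2
  have hs : s = x ∧ t = x := by
    rcases hx2 with h | h
    · subst h
      exact ⟨rfl, (hp1 _ _ hx hst).symm⟩
    · subst h
      exact ⟨(hp1 _ _ hx hst.symm).symm, rfl⟩
  obtain ⟨rfl, rfl⟩ := hs
  match L1, hK, hL with
  | [], hK, hL =>
    exfalso
    simp only [List.nil_append] at hK
    subst hK
    simp at hL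
  | [a], hK, hL =>
    simp only [List.cons_append, List.nil_append, List.cons.injEq] at hK
    obtain ⟨rfl, rfl⟩ := hK
    exact ⟨γ, u, v, β, rfl, hu, hv⟩
  | a :: b :: L1, hK, hL =>
    exfalso
    simp only [List.cons_append, List.cons.injEq, List.append_eq_nil_iff] at hK
    obtain ⟨rfl, rfl, rfl, rfl⟩ := hK
    simp at hL

end Pool.Agent.U682.FT
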